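import Mathlib

set_option autoImplicit false

/-!
# Gamma expansions from a three term recurrence: the algebra
-/

namespace Run7.h355.GB

open PowerSeries

noncomputable section

/-- the operator `x d/dx` -/
def dd (φ : ℚ⟦X⟧) : ℚ⟦X⟧ := X * PowerSeries.derivative ℚ φ

theorem coeff_dd (φ : ℚ⟦X⟧) (n : ℕ) : coeff n (dd φ) = n * coeff n φ := by
  unfold dd
  cases n with
  | zero => simp
  | succ n =>
    rw [coeff_succ_X_mul, coeff_derivative]
    push_cast
    ring

theorem dd_mul (a b : ℚ⟦X⟧) : dd (a * b) = dd a * b + a * dd b := by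
  unfold dd
  rw [Derivation.leibniz]
  simp only [smul_eq_mul]
  ring

/-- the inverse of `1 - x` -/
def u : ℚ⟦X⟧ := (1 - X)⁻¹
/-- the inverse of `1 + x` -/
def v : ℚ⟦X⟧ := (1 + X)⁻¹

theorem hu : (1 - X) * u = 1 := PowerSeries.mul_inv_cancel _ (by simp)
theorem hv : (1 + X) * v = 1 := PowerSeries.mul_inv_cancel _ (by simp)

theorem dd_u : dd u = X * u ^ 2 := by
  unfold dd u
  rw [derivative_inv']
  simp

theorem dd_v : dd v = -(X * v ^ 2) := by
  unfold dd v
  rw [derivative_inv']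
  simp

/-- `x / (1 + x)^2` -/
def Y : ℚ⟦X⟧ := X * v ^ 2

theorem dd_Y : dd Y = Y * ((1 - X) * v) := by
  have h := hv
  unfold Y
  rw [pow_two, dd_mul, dd_mul, dd_v]
  have hX : dd (X : ℚ⟦X⟧) = X := by unfold dd; simp
  rw [hX]
  linear_combination (-(X * v ^ 2)) * h

theorem one_sub_Y : 1 - 4 * Y = ((1 - X) * v) ^ 2 := by
  have h := hv
  unfold Y
  linear_combination (-(1 + (1 + X) * v)) * h

/-- `(1 + x)^m / (1 - x)^(m+1)` -/
def q (m : ℕ) : ℚ⟦X⟧ := (1 + X) ^ m * u ^ (m + 1)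

theorem q_succ (m : ℕ) : q (m + 1) = q m * ((1 + X) * u) := by
  unfold q; ring

theorem dd_q (m : ℕ) :
    dd (q m) = q m * ((m : ℚ⟦X⟧) * (X * v) + ((m : ℚ⟦X⟧) + 1) * (X * u)) := by
  have h := hv
  induction m with
  | zero =>
    unfold q
    simp only [pow_zero, one_mul, zero_add, pow_one, Nat.cast_zero, zero_mul]
    rw [dd_u]; ring
  | succ m ih =>
    rw [q_succ, dd_mul, ih, dd_mul, dd_u]
    have h1 : dd (1 + X : ℚ⟦X⟧) = X := by unfold dd; simp
    rw [h1]
    push_cast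
    linear_combination (q m * u * X * (-1)) * h

theorem q_two (m : ℕ) : q m = q (m + 2) * (1 - 4 * Y) := by
  rw [one_sub_Y, q_succ, q_succ]
  have h1 := hu
  have h2 := hv
  have h3 : ((1 + X) * u) * ((1 - X) * v) = 1 := by
    linear_combination ((1 + X) * v) * h1 + h2
  linear_combination (-(q m) * (1 + ((1 + X) * u) * ((1 - X) * v))) * h3

/-- evaluation at `x / (1 + x)^2` -/
def ev (P : Polynomial ℚ) : ℚ⟦X⟧ := Polynomial.aeval Y P

theorem dd_ev (P : Polynomial ℚ) : dd (ev P) = ev (Polynomial.derivative P) * dd Y := by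
  unfold dd ev
  rw [Derivation.map_aeval]
  simp only [smul_eq_mul]
  ring

/-- the operator of level `m` -/
def E (m : ℕ) (P : Polynomial ℚ) : Polynomial ℚ :=
  (1 + Polynomial.C (4 * (m : ℚ)) * Polynomial.X) * P +
    Polynomial.C 2 * Polynomial.X * (1 - Polynomial.C 4 * Polynomial.X) * Polynomial.derivative P

theorem ev_E (m : ℕ) (P : Polynomial ℚ) :
    ev (E m P) = (1 + 4 * (m : ℚ⟦X⟧) * Y) * ev P +
      2 * Y * (1 - 4 * Y) * ev (Polynomial.derivative P) := by
  unfold E ev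
  simp only [map_add, map_mul, map_one, map_sub, Polynomial.aeval_X, Polynomial.aeval_C]
  have h4 : (algebraMap ℚ ℚ⟦X⟧) 4 = 4 := by simp [map_ofNat]
  have h2 : (algebraMap ℚ ℚ⟦X⟧) 2 = 2 := by simp [map_ofNat]
  have hm : (algebraMap ℚ ℚ⟦X⟧) (m : ℚ) = m := map_natCast _ m
  rw [h4, h2, hm]

theorem key (m : ℕ) (P : Polynomial ℚ) :
    2 * dd (q m * ev P) + q m * ev P = q (m + 1) * ev (E m P) := by
  rw [dd_mul, dd_q, dd_ev, dd_Y, ev_E, one_sub_Y, q_succ]
  have h1 := hu
  have h2 := hv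
  have h3 : ((1 + X) * u) * ((1 - X) * v) = 1 := by
    linear_combination ((1 + X) * v) * h1 + h2
  have h4 : (1 + X) * u * (1 + 4 * (m : ℚ⟦X⟧) * Y) =
      1 + 2 * ((m : ℚ⟦X⟧) * (X * v) + ((m : ℚ⟦X⟧) + 1) * (X * u)) := by
    unfold Y
    linear_combination (4 * (m : ℚ⟦X⟧) * X * u * v + 2 * (m : ℚ⟦X⟧) * X * u) * h2 +
      (1 : ℚ⟦X⟧) * h1 + (2 * (m : ℚ⟦X⟧) * X * v) * h1
  linear_combination (-(q m * ev P)) * h4 +
    (-(2 * q m * ev (Polynomial.derivative P) * Y * ((1 - X) * v))) * h3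

/-- the gamma polynomials -/
def G : ℕ → Polynomial ℚ
  | 0 => 1
  | 1 => 1
  | (n + 2) => Polynomial.C (1 / ((n : ℚ) + 2)) *
      (E (n + 1) (G (n + 1)) +
        Polynomial.C ((n : ℚ) + 1 / 2) * (1 - Polynomial.C 4 * Polynomial.X) * G n +
        Polynomial.C (1 / 2) * E (n + 1) (E n (G n)))

theorem G_rec (n : ℕ) : Polynomial.C ((n : ℚ) + 2) * G (n + 2) =
    E (n + 1) (G (n + 1)) +
        Polynomial.C ((n : ℚ) + 1 / 2) * (1 - Polynomial.C 4 * Polynomial.X) * G n +
        Polynomial.C (1 / 2) * E (n + 1) (E n (G n)) := by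
  have h : (n : ℚ) + 2 ≠ 0 := by positivity
  rw [show G (n + 2) = Polynomial.C (1 / ((n : ℚ) + 2)) *
      (E (n + 1) (G (n + 1)) +
        Polynomial.C ((n : ℚ) + 1 / 2) * (1 - Polynomial.C 4 * Polynomial.X) * G n +
        Polynomial.C (1 / 2) * E (n + 1) (E n (G n))) from rfl]
  rw [← mul_assoc, ← Polynomial.C_mul, mul_one_div_cancel h, Polynomial.C_1, one_mul]

/-- the power series with coefficients `c n r` -/
def ser (c : ℕ → ℕ → ℚ) (n : ℕ) : ℚ⟦X⟧ := PowerSeries.mk (c n)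

theorem ser_rec (c : ℕ → ℕ → ℚ)
    (h : ∀ n r : ℕ, ((n : ℚ) + 2) * c (n + 2) r =
      (2 * (r : ℚ) + 1) * c (n + 1) r + ((n : ℚ) + 1 + 2 * r * (r + 1)) * c n r) (n : ℕ) :
    PowerSeries.C ((n : ℚ) + 2) * ser c (n + 2) =
      (2 * dd (ser c (n + 1)) + ser c (n + 1)) +
      PowerSeries.C ((n : ℚ) + 1 / 2) * ser c n +
      PowerSeries.C (1 / 2 : ℚ) * (2 * dd (2 * dd (ser c n) + ser c n) +
        (2 * dd (ser c n) + ser c n)) := by
  ext r
  have h2 : ∀ φ : ℚ⟦X⟧, coeff r (2 * φ) = 2 * coeff r φ := by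
    intro φ
    rw [show (2 : ℚ⟦X⟧) = PowerSeries.C (2 : ℚ) by simp [map_ofNat], coeff_C_mul]
  have hA : ∀ a b : ℚ⟦X⟧, coeff r (a + b) = coeff r a + coeff r b := fun a b => map_add _ a b
  simp only [hA, coeff_C_mul, h2, coeff_dd]
  simp only [ser, coeff_mk]
  rw [h]
  ring

theorem ser_eq (c : ℕ → ℕ → ℚ) (h0 : ∀ r, c 0 r = 1) (h1 : ∀ r : ℕ, c 1 r = 2 * r + 1)
    (h : ∀ n r : ℕ, ((n : ℚ) + 2) * c (n + 2) r =
      (2 * (r : ℚ) + 1) * c (n + 1) r + ((n : ℚ) + 1 + 2 * r * (r + 1)) * c n r) (n : ℕ) :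
    ser c n = q n * ev (G n) := by
  have hone : ev 1 = 1 := by unfold ev; simp
  have hs0 : ser c 0 = q 0 * ev 1 := by
    have e1 : (1 - X) * ser c 0 = 1 := by
      have : ser c 0 = PowerSeries.mk 1 := by
        unfold ser
        congr 1
        funext r
        simp [h0 r]
      rw [this, mul_comm]
      exact PowerSeries.mk_one_mul_one_sub_eq_one ℚ
    have e2 := hu
    rw [hone]
    unfold q
    linear_combination u * e1 - (ser c 0) * e2
  have hE : E 0 1 = 1 := by unfold E; simp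
  have key' : ∀ n, ser c n = q n * ev (G n) ∧ ser c (n + 1) = q (n + 1) * ev (G (n + 1)) := by
    intro n
    induction n with
    | zero =>
      refine ⟨hs0, ?_⟩
      have e1 : ser c 1 = 2 * dd (ser c 0) + ser c 0 := by
        ext r
        rw [map_add, show (2 : ℚ⟦X⟧) = PowerSeries.C (2 : ℚ) by simp [map_ofNat], coeff_C_mul,
          coeff_dd]
        simp only [ser, coeff_mk, h0, h1]
        ring
      show ser c 1 = q 1 * ev 1
      rw [e1, hs0, key, hE]
    | succ n ih =>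
      refine ⟨ih.2, ?_⟩
      have h3 : (n : ℚ) + 2 ≠ 0 := by positivity
      have e1 := ser_rec c h n
      rw [ih.1, ih.2, key, key, key] at e1
      have e2 : PowerSeries.C ((n : ℚ) + 2) * (q (n + 2) * ev (G (n + 2))) =
          q (n + 2) * ev (E (n + 1) (G (n + 1))) +
          PowerSeries.C ((n : ℚ) + 1 / 2) * (q n * ev (G n)) +
          PowerSeries.C (1 / 2 : ℚ) * (q (n + 2) * ev (E (n + 1) (E n (G n)))) := by
        have e3 := congrArg ev (G_rec n)
        have hC : ∀ a : ℚ, ev (Polynomial.C a) = PowerSeries.C a := by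
          intro a; unfold ev; rw [Polynomial.aeval_C]; rfl
        have hX : ev Polynomial.X = Y := by unfold ev; simp
        have hm : ∀ A B, ev (A * B) = ev A * ev B := by intro A B; unfold ev; simp
        have ha : ∀ A B, ev (A + B) = ev A + ev B := by intro A B; unfold ev; simp
        have hs : ∀ A B, ev (A - B) = ev A - ev B := by intro A B; unfold ev; simp
        simp only [hm, ha, hs, hC, hX, hone] at e3
        have h4 : PowerSeries.C (4 : ℚ) = 4 := by simp [map_ofNat]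
        rw [h4] at e3
        have e4 := q_two n
        linear_combination (q (n + 2)) * e3 -
          (PowerSeries.C ((n : ℚ) + 1 / 2) * ev (G n)) * e4
      have e5 : PowerSeries.C ((n : ℚ) + 2) * ser c (n + 2) =
          PowerSeries.C ((n : ℚ) + 2) * (q (n + 2) * ev (G (n + 2))) := by
        rw [e1, e2]
      have e6 := congrArg (fun z => PowerSeries.C (1 / ((n : ℚ) + 2)) * z) e5
      simp only [← mul_assoc] at e6
      rw [← map_mul, one_div_mul_cancel h3, map_one, one_mul, one_mul] at e6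
      show ser c (n + 2) = q (n + 2) * ev (G (n + 2))
      exact e6
  exact (key' n).1

end

end Run7.h355.GB
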