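import Mathlib

set_option autoImplicit false

/-!
# Counting multiplicity functions invariant under an involution
-/

namespace Run7.h355.GB

open Finset

noncomputable section

variable {ι : Type} [DecidableEq ι]

open Classical in
/-- functions with sum `n` supported in `P` and invariant under `τ` -/
def CC (P : Finset ι) (τ : ι → ι) (n : ℕ) : Finset (ι → ℕ) :=
  (P.piAntidiag n).filter (fun m => ∀ p ∈ P, m (τ p) = m p)

theorem mem_CC {P : Finset ι} {τ : ι → ι} {n : ℕ} {m : ι → ℕ} :
    m ∈ CC P τ n ↔ (∑ p ∈ P, m p = n ∧ ∀ p, m p ≠ 0 → p ∈ P) ∧ ∀ p ∈ P, m (τ p) = m p := by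
  unfold CC
  rw [Finset.mem_filter, Finset.mem_piAntidiag]

/-- the indicator of the orbit of `p` -/
def del (τ : ι → ι) (p : ι) : ι → ℕ := fun x => if x = p ∨ x = τ p then 1 else 0

theorem sum_del {P : Finset ι} {τ : ι → ι} (hτ : ∀ p ∈ P, τ p ∈ P) {p : ι} (hp : p ∈ P) :
    ∑ x ∈ P, del τ p x = if τ p = p then 1 else 2 := by
  unfold del
  rw [← Finset.card_filter]
  split_ifs with h
  · rw [h]
    have : P.filter (fun x => x = p ∨ x = p) = {p} := by
      ext x; simp only [Finset.mem_filter, Finset.mem_singleton, or_self]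
      exact ⟨fun h => h.2, fun h => ⟨h ▸ hp, h⟩⟩
    rw [this, Finset.card_singleton]
  · have : P.filter (fun x => x = p ∨ x = τ p) = {p, τ p} := by
      ext x; simp only [Finset.mem_filter, Finset.mem_insert, Finset.mem_singleton]
      refine ⟨fun h => h.2, fun h => ⟨?_, h⟩⟩
      rcases h with h | h
      · exact h ▸ hp
      · exact h ▸ hτ p hp
    rw [this, Finset.card_pair (fun e => h e.symm)]

theorem del_inv {P : Finset ι} {τ : ι → ι} (hττ : ∀ p ∈ P, τ (τ p) = p) {p : ι} (hp : p ∈ P)
    (x : ι) (hx : x ∈ P) : del τ p (τ x) = del τ p x := by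
  unfold del
  have h1 : (τ x = p ∨ τ x = τ p) ↔ (x = p ∨ x = τ p) := by
    constructor
    · rintro (h | h)
      · right; rw [← h, hττ x hx]
      · left; rw [← hττ x hx, h, hττ p hp]
    · rintro (h | h)
      · right; rw [h]
      · left; rw [h, hττ p hp]
  simp only [h1]

theorem S_step {P : Finset ι} {τ : ι → ι} (hτ : ∀ p ∈ P, τ p ∈ P) (hττ : ∀ p ∈ P, τ (τ p) = p)
    {p : ι} (hp : p ∈ P) (n k : ℕ) (hk : ∑ x ∈ P, del τ p x = k) :
    ∑ m ∈ CC P τ (n + k), m p = ∑ m ∈ CC P τ n, m p + (CC P τ n).card := by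
  have h1 : ∑ m ∈ CC P τ (n + k), m p = ∑ m ∈ (CC P τ (n + k)).filter (fun m => m p ≠ 0), m p := by
    rw [Finset.sum_filter]
    apply Finset.sum_congr rfl
    intro m _
    split_ifs with h
    · rfl
    · exact not_not.1 h
  have hdp : del τ p p = 1 := by simp [del]
  have h2 : ∑ m ∈ (CC P τ (n + k)).filter (fun m => m p ≠ 0), m p = ∑ m ∈ CC P τ n, (m p + 1) := by
    refine Finset.sum_nbij' (fun m => m - del τ p) (fun m => m + del τ p) ?_ ?_ ?_ ?_ ?_
    · intro m hm
      rw [Finset.mem_filter, mem_CC] at hm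
      obtain ⟨⟨⟨hs, hsupp⟩, hinv⟩, hne⟩ := hm
      have hle : ∀ x, del τ p x ≤ m x := by
        intro x
        unfold del
        split_ifs with h
        · rcases h with h | h
          · rw [h]; omega
          · rw [h, hinv p hp]; omega
        · omega
      rw [mem_CC]
      refine ⟨⟨?_, ?_⟩, ?_⟩
      · have : ∑ x ∈ P, (m - del τ p) x + ∑ x ∈ P, del τ p x = ∑ x ∈ P, m x := by
          rw [← Finset.sum_add_distrib]
          apply Finset.sum_congr rfl
          intro x _
          have := hle x
          simp only [Pi.sub_apply]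
          omega
        omega
      · intro x hx
        apply hsupp
        intro h
        apply hx
        simp only [Pi.sub_apply]
        omega
      · intro x hx
        simp only [Pi.sub_apply]
        rw [hinv x hx, del_inv hττ hp x hx]
    · intro m hm
      rw [mem_CC] at hm
      obtain ⟨⟨hs, hsupp⟩, hinv⟩ := hm
      rw [Finset.mem_filter, mem_CC]
      refine ⟨⟨⟨?_, ?_⟩, ?_⟩, ?_⟩
      · simp only [Pi.add_apply]
        rw [Finset.sum_add_distrib, hs, hk]
      · intro x hx
        by_cases h : m x = 0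
        · simp only [Pi.add_apply, h, zero_add] at hx
          unfold del at hx
          split_ifs at hx with h2
          · rcases h2 with h2 | h2
            · exact h2 ▸ hp
            · exact h2 ▸ hτ p hp
          · exact absurd rfl hx
        · exact hsupp x h
      · intro x hx
        simp only [Pi.add_apply]
        rw [hinv x hx, del_inv hττ hp x hx]
      · simp only [Pi.add_apply, hdp]
        omega
    · intro m hm
      rw [Finset.mem_filter, mem_CC] at hm
      obtain ⟨⟨⟨hs, hsupp⟩, hinv⟩, hne⟩ := hm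
      funext x
      simp only [Pi.add_apply, Pi.sub_apply]
      have hle : del τ p x ≤ m x := by
        unfold del
        split_ifs with h
        · rcases h with h | h
          · rw [h]; omega
          · rw [h, hinv p hp]; omega
        · omega
      omega
    · intro m _
      funext x
      simp
    · intro m hm
      rw [Finset.mem_filter] at hm
      have := hm.2
      simp only [Pi.sub_apply, hdp]
      omega
  rw [h1, h2, Finset.sum_add_distrib]
  simp

theorem sum_S {P : Finset ι} {τ : ι → ι} (n : ℕ) :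
    ∑ p ∈ P, ∑ m ∈ CC P τ n, m p = n * (CC P τ n).card := by
  rw [Finset.sum_comm]
  rw [Finset.sum_congr rfl (g := fun _ => n) (fun m hm => (mem_CC.1 hm).1.1)]
  rw [Finset.sum_const, smul_eq_mul, mul_comm]

theorem CC_zero {P : Finset ι} {τ : ι → ι} : (CC P τ 0).card = 1 := by
  have : CC P τ 0 = {0} := by
    ext m
    rw [mem_CC, Finset.mem_singleton]
    constructor
    · rintro ⟨⟨hs, hsupp⟩, -⟩
      funext x
      by_contra hne
      have hx := hsupp x hne
      have := (Finset.sum_eq_zero_iff.1 hs) x hx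
      exact hne this
    · rintro rfl
      simp
  rw [this, Finset.card_singleton]

theorem CC_one {P : Finset ι} {τ : ι → ι} (hτ : ∀ p ∈ P, τ p ∈ P) (hττ : ∀ p ∈ P, τ (τ p) = p) :
    (CC P τ 1).card = (P.filter (fun p => τ p = p)).card := by
  have h := sum_S (P := P) (τ := τ) 1
  rw [one_mul] at h
  rw [← h, Finset.card_filter]
  apply Finset.sum_congr rfl
  intro p hp
  split_ifs with hf
  · have h1 := S_step hτ hττ hp 0 1 (by rw [sum_del hτ hp, if_pos hf])
    rw [zero_add] at h1
    rw [h1, CC_zero]
    have : ∑ m ∈ CC P τ 0, m p = 0 := by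
      apply Finset.sum_eq_zero
      intro m hm
      exact (Finset.sum_eq_zero_iff.1 (mem_CC.1 hm).1.1) p hp
    rw [this]
  · apply Finset.sum_eq_zero
    intro m hm
    obtain ⟨⟨hs, hsupp⟩, hinv⟩ := mem_CC.1 hm
    by_contra hne
    have h2 : ∑ x ∈ ({p, τ p} : Finset ι), m x ≤ ∑ x ∈ P, m x := by
      apply Finset.sum_le_sum_of_subset
      intro x hx
      rw [Finset.mem_insert, Finset.mem_singleton] at hx
      rcases hx with h | h
      · exact h ▸ hp
      · exact h ▸ hτ p hp
    rw [Finset.sum_pair (fun e => hf e.symm), hinv p hp, hs] at h2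
    omega

theorem CC_rec {P : Finset ι} {τ : ι → ι} (hτ : ∀ p ∈ P, τ p ∈ P) (hττ : ∀ p ∈ P, τ (τ p) = p)
    (n : ℕ) : (n + 2) * (CC P τ (n + 2)).card =
      (P.filter (fun p => τ p = p)).card * (CC P τ (n + 1)).card +
        (n + P.card) * (CC P τ n).card := by
  have h := sum_S (P := P) (τ := τ) (n + 2)
  have h0 := sum_S (P := P) (τ := τ) n
  rw [← h]
  have h1 : ∀ p ∈ P, ∑ m ∈ CC P τ (n + 2), m p =
      (∑ m ∈ CC P τ n, m p + (CC P τ n).card) +
        (if τ p = p then (CC P τ (n + 1)).card else 0) := by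
    intro p hp
    split_ifs with hf
    · have e : ∑ x ∈ P, del τ p x = 1 := by rw [sum_del hτ hp, if_pos hf]
      rw [show n + 2 = (n + 1) + 1 from rfl, S_step hτ hττ hp (n + 1) 1 e,
        S_step hτ hττ hp n 1 e]
    · have e : ∑ x ∈ P, del τ p x = 2 := by rw [sum_del hτ hp, if_neg hf]
      rw [S_step hτ hττ hp n 2 e, add_zero]
  rw [Finset.sum_congr rfl h1, Finset.sum_add_distrib, Finset.sum_add_distrib, h0,
    Finset.sum_const, ← Finset.sum_filter, Finset.sum_const, smul_eq_mul, smul_eq_mul]
  ring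

end

end Run7.h355.GB
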