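import Mathlib

set_option autoImplicit false

/-!
# The index set and its involution
-/

namespace Run7.h355.GB

open Finset

/-- the index set -/
noncomputable def Pr (r : ℕ) : Finset (ℤ × ℤ) :=
  (({0} : Finset ℤ) ×ˢ Icc (0 : ℤ) r) ∪ (Icc (1 : ℤ) r ×ˢ Icc (-(r : ℤ)) r)

/-- the involution -/
def tau (p : ℤ × ℤ) : ℤ × ℤ := if p.2 < 0 then (-p.2, -p.1) else (p.2, p.1)

theorem mem_Pr {r : ℕ} {x y : ℤ} :
    (x, y) ∈ Pr r ↔ 0 ≤ x ∧ x ≤ r ∧ -(r : ℤ) ≤ y ∧ y ≤ r ∧ (x = 0 → 0 ≤ y) := by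
  unfold Pr
  simp only [Finset.mem_union, Finset.mem_product, Finset.mem_singleton, Finset.mem_Icc]
  omega

theorem card_Pr (r : ℕ) : (Pr r).card = 2 * r ^ 2 + 2 * r + 1 := by
  unfold Pr
  rw [Finset.card_union_of_disjoint, Finset.card_product, Finset.card_product,
    Finset.card_singleton, Int.card_Icc, Int.card_Icc, Int.card_Icc]
  · have h1 : ((r : ℤ) + 1 - 0).toNat = r + 1 := by omega
    have h2 : ((r : ℤ) + 1 - 1).toNat = r := by omega
    have h3 : ((r : ℤ) + 1 - -(r : ℤ)).toNat = 2 * r + 1 := by omega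
    rw [h1, h2, h3]
    ring
  · rw [Finset.disjoint_left]
    rintro ⟨x, y⟩ h1 h2
    simp only [Finset.mem_product, Finset.mem_singleton, Finset.mem_Icc] at h1 h2
    omega

theorem tau_mem {r : ℕ} : ∀ p ∈ Pr r, tau p ∈ Pr r := by
  rintro ⟨x, y⟩ h
  rw [mem_Pr] at h
  unfold tau
  split_ifs with h1
  · simp only at h1
    rw [mem_Pr]
    omega
  · simp only at h1
    rw [mem_Pr]
    omega

theorem tau_tau {r : ℕ} : ∀ p ∈ Pr r, tau (tau p) = p := by
  rintro ⟨x, y⟩ h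
  rw [mem_Pr] at h
  unfold tau
  simp only
  by_cases h1 : y < 0
  · rw [if_pos h1]
    simp only
    rw [if_pos (by omega)]
    simp
  · rw [if_neg h1]
    simp only
    rw [if_neg (by omega)]

theorem card_fix (r : ℕ) : ((Pr r).filter (fun p => tau p = p)).card = 2 * r + 1 := by
  have h3 : (Icc (-(r : ℤ)) r).card = 2 * r + 1 := by
    rw [Int.card_Icc]; omega
  rw [← h3]
  refine Finset.card_nbij' (fun p => p.2) (fun y => (|y|, y)) ?_ ?_ ?_ ?_
  · rintro ⟨x, y⟩ h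
    rw [Finset.mem_coe, Finset.mem_filter, mem_Pr] at h
    rw [Finset.mem_coe, Finset.mem_Icc]
    show -(r : ℤ) ≤ y ∧ y ≤ r
    omega
  · intro y h
    rw [Finset.mem_coe, Finset.mem_Icc] at h
    rw [Finset.mem_coe, Finset.mem_filter, mem_Pr]
    unfold tau
    simp only
    rcases lt_or_ge y 0 with h1 | h1
    · rw [abs_of_neg h1, if_pos h1, neg_neg]
      refine ⟨⟨by omega, by omega, by omega, by omega, fun h => ?_⟩, rfl⟩
      show 0 ≤ y
      exfalso
      have : -y = 0 := h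
      omega
    · rw [abs_of_nonneg h1, if_neg (not_lt.2 h1)]
      refine ⟨⟨by omega, by omega, by omega, by omega, fun _ => h1⟩, rfl⟩
  · rintro ⟨x, y⟩ h
    rw [Finset.mem_coe, Finset.mem_filter, mem_Pr] at h
    obtain ⟨h1, h2⟩ := h
    unfold tau at h2
    simp only at h2 ⊢
    rcases lt_or_ge y 0 with h3 | h3
    · rw [if_pos h3] at h2
      rw [abs_of_neg h3]
      rw [Prod.mk.injEq] at h2
      rw [Prod.mk.injEq]
      exact ⟨h2.1, rfl⟩
    · rw [if_neg (not_lt.2 h3)] at h2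
      rw [abs_of_nonneg h3]
      rw [Prod.mk.injEq] at h2
      rw [Prod.mk.injEq]
      exact ⟨h2.1, rfl⟩
  · intro y _
    rfl

end Run7.h355.GB
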