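import Pool.Agent.Run7.h355.GB.Cmp
import Pool.Agent.Run7.h355.GB.Cnt
import Pool.Agent.Run7.h355.GB.Prt

set_option autoImplicit false

/-!
# From compatible pairs to symmetric multiplicity functions
-/

namespace Run7.h355.GB

open Finset

noncomputable section

/-- involutions -/
def IsInv {n : ℕ} (w : SP n) : Prop := ∀ i, w.1 (w.1 i) = i ∧ w.2 (w.1 i) = w.2 i

/-- the point attached to `j` -/
def gg {n : ℕ} (w : SP n) (f : Fin n → ℕ) (j : Fin n) : ℤ × ℤ :=
  ((f j : ℤ), if w.2 j = true then -(f (w.1 j) : ℤ) else (f (w.1 j) : ℤ))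

theorem gg_neg {n : ℕ} {w : SP n} {f : Fin n → ℕ} {j : Fin n} (h : w.2 j = true) :
    gg w f j = ((f j : ℤ), -(f (w.1 j) : ℤ)) := by
  unfold gg; rw [if_pos h]

theorem gg_pos {n : ℕ} {w : SP n} {f : Fin n → ℕ} {j : Fin n} (h : w.2 j = false) :
    gg w f j = ((f j : ℤ), (f (w.1 j) : ℤ)) := by
  unfold gg; rw [if_neg (by rw [h]; simp)]

theorem ne_zero {n : ℕ} {w : SP n} {f : Fin n → ℕ} (hf : Cp w f) {j : Fin n}
    (h : w.2 j = true) : f j ≠ 0 := by
  intro h0
  have := hf.2 j h0
  rw [h] at this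
  exact absurd this (by simp)

theorem Cp_mono {n : ℕ} {w : SP n} {f : Fin n → ℕ} (hf : Cp w f) {i j : Fin n} (h : i ≤ j) :
    f i ≤ f j := by
  rcases eq_or_lt_of_le h with h | h
  · rw [h]
  · rcases hf.1 i j h with h | h <;> omega

theorem gg_mem {n r : ℕ} {w : SP n} {f : Fin n → ℕ} (_hw : IsInv w) (hf : Cp w f)
    (hr : ∀ j, f j ≤ r) (j : Fin n) : gg w f j ∈ Pr r := by
  have h1 := hr j
  have h2 := hr (w.1 j)
  rcases h : w.2 j
  · rw [gg_pos h, mem_Pr]
    omega
  · have h3 := ne_zero hf h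
    rw [gg_neg h, mem_Pr]
    omega

theorem gg_sig {n : ℕ} {w : SP n} {f : Fin n → ℕ} (hw : IsInv w) (hf : Cp w f) (j : Fin n) :
    gg w f (w.1 j) = tau (gg w f j) := by
  have h1 := hw j
  rcases h : w.2 j
  · rw [gg_pos h, gg_pos (by rw [h1.2, h]), h1.1]
    unfold tau
    simp only
    rw [if_neg (by omega)]
  · have h3 := ne_zero hf (show w.2 (w.1 j) = true by rw [h1.2, h])
    rw [gg_neg h, gg_neg (by rw [h1.2, h]), h1.1]
    unfold tau
    simp only
    rw [if_pos (by omega), neg_neg]

theorem gg_lex {n : ℕ} {w : SP n} {f : Fin n → ℕ} (hf : Cp w f) {i j : Fin n} (h : i < j) :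
    (gg w f i).1 < (gg w f j).1 ∨ ((gg w f i).1 = (gg w f j).1 ∧ (gg w f i).2 ≤ (gg w f j).2) := by
  rcases hf.1 i j h with h1 | ⟨h1, h2⟩
  · left
    unfold gg
    simp only
    omega
  · right
    refine ⟨by unfold gg; simp only; omega, ?_⟩
    rcases hi : w.2 i <;> rcases hj : w.2 j
    · rw [gg_pos hi, gg_pos hj]
      rw [wv_pos hi, wv_pos hj] at h2
      have : w.1 i ≤ w.1 j := by
        show (w.1 i).val ≤ (w.1 j).val
        omega
      have := Cp_mono hf this
      simp only
      omega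
    · rw [wv_pos hi, wv_neg hj] at h2
      omega
    · rw [gg_neg hi, gg_pos hj]
      simp only
      omega
    · rw [gg_neg hi, gg_neg hj]
      rw [wv_neg hi, wv_neg hj] at h2
      have : w.1 j ≤ w.1 i := by
        show (w.1 j).val ≤ (w.1 i).val
        omega
      have := Cp_mono hf this
      simp only
      omega

theorem gg_monotone {n : ℕ} {w : SP n} {f : Fin n → ℕ} (hf : Cp w f) :
    Monotone (fun j => toLex (gg w f j)) := by
  intro i j h
  rcases eq_or_lt_of_le h with h | h
  · rw [h]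
  · show toLex (gg w f i) ≤ toLex (gg w f j)
    rw [Prod.Lex.le_iff]
    exact gg_lex hf h

/-- the multiplicity function -/
def Phi {n : ℕ} (w : SP n) (f : Fin n → ℕ) (p : ℤ × ℤ) : ℕ :=
  (univ.filter (fun j => gg w f j = p)).card

theorem Phi_mem {n r : ℕ} {w : SP n} {f : Fin n → ℕ} (hw : IsInv w) (hf : Cp w f)
    (hr : ∀ j, f j ≤ r) : Phi w f ∈ CC (Pr r) tau n := by
  rw [mem_CC]
  refine ⟨⟨?_, ?_⟩, ?_⟩
  · unfold Phi
    rw [← Finset.card_eq_sum_card_fiberwise (f := gg w f) (s := univ) (t := Pr r)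
      (fun j _ => gg_mem hw hf hr j)]
    simp
  · intro p hp
    unfold Phi at hp
    obtain ⟨j, hj⟩ := Finset.card_pos.1 (Nat.pos_of_ne_zero hp)
    rw [Finset.mem_filter] at hj
    rw [← hj.2]
    exact gg_mem hw hf hr j
  · intro p hp
    unfold Phi
    refine Finset.card_nbij' (fun j => w.1 j) (fun j => w.1 j) ?_ ?_ ?_ ?_
    · intro j hj
      rw [Finset.mem_coe, Finset.mem_filter] at hj
      rw [Finset.mem_coe, Finset.mem_filter]
      refine ⟨Finset.mem_univ _, ?_⟩
      rw [gg_sig hw hf, hj.2, tau_tau p hp]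
    · intro j hj
      rw [Finset.mem_coe, Finset.mem_filter] at hj
      rw [Finset.mem_coe, Finset.mem_filter]
      refine ⟨Finset.mem_univ _, ?_⟩
      rw [gg_sig hw hf, hj.2]
    · intro j _
      exact (hw j).1
    · intro j _
      exact (hw j).1

theorem eq_of_counts {α : Type} [LinearOrder α] {n : ℕ} (a b : Fin n → α) (ha : Monotone a)
    (hb : Monotone b) (h : ∀ x, (univ.filter (fun j => a j = x)).card =
      (univ.filter (fun j => b j = x)).card) : a = b := by
  have e : ∀ c : α, Nonempty ({j // a j = c} ≃ {j // b j = c}) := by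
    intro c
    apply Fintype.card_eq.1
    rw [Fintype.card_subtype, Fintype.card_subtype]
    exact h c
  let π : Fin n ≃ Fin n := Equiv.ofFiberEquiv (fun c => (e c).some)
  have hπ : ∀ j, b (π j) = a j := fun j => Equiv.ofFiberEquiv_map _ j
  have h1 : b ∘ π = a := funext hπ
  have h2 := Tuple.unique_monotone (f := b) (σ := π) (τ := 1) (by rw [h1]; exact ha)
    (by simpa using hb)
  rw [h1] at h2
  simpa using h2

theorem Phi_inj {n : ℕ} {w w' : SP n} {f f' : Fin n → ℕ} (hw : IsInv w) (hw' : IsInv w')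
    (hf : Cp w f) (hf' : Cp w' f') (h : Phi w f = Phi w' f') : w = w' ∧ f = f' := by
  have hg0 : (fun j => toLex (gg w f j)) = (fun j => toLex (gg w' f' j)) := by
    refine eq_of_counts _ _ (gg_monotone hf) (gg_monotone hf') (fun x => ?_)
    have := congrFun h (ofLex x)
    unfold Phi at this
    have e : ∀ (v : SP n) (k : Fin n → ℕ), (univ.filter (fun j => toLex (gg v k j) = x)) =
        univ.filter (fun j => gg v k j = ofLex x) := by
      intro v k
      ext j
      rw [Finset.mem_filter, Finset.mem_filter]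
      exact Iff.rfl
    rw [e, e]
    exact this
  have hg : ∀ j, gg w f j = gg w' f' j := by
    intro j
    have := congrFun hg0 j
    exact toLex.injective this
  have hff : f = f' := by
    funext j
    have := congrArg Prod.fst (hg j)
    unfold gg at this
    simp only at this
    omega
  subst hff
  have hs : ∀ j, w.2 j = w'.2 j := by
    intro j
    have h1 := hg j
    rcases h2 : w.2 j <;> rcases h3 : w'.2 j
    · rfl
    · have h4 := ne_zero hf' (show w'.2 (w'.1 j) = true by rw [(hw' j).2, h3])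
      rw [gg_pos h2, gg_neg h3, Prod.mk.injEq] at h1
      omega
    · have h4 := ne_zero hf (show w.2 (w.1 j) = true by rw [(hw j).2, h2])
      rw [gg_neg h2, gg_pos h3, Prod.mk.injEq] at h1
      omega
    · rfl
  have hfs : ∀ j, f (w.1 j) = f (w'.1 j) := by
    intro j
    have h1 := hg j
    rcases h2 : w.2 j
    · have h3 : w'.2 j = false := by rw [← hs, h2]
      rw [gg_pos h2, gg_pos h3, Prod.mk.injEq] at h1
      omega
    · have h3 : w'.2 j = true := by rw [← hs, h2]
      rw [gg_neg h2, gg_neg h3, Prod.mk.injEq] at h1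
      omega
  have hfp : ∀ j, f (w'.1 (w.1 j)) = f j := by
    intro j
    rw [← hfs, (hw j).1]
  have hwp : ∀ j, wv w' (w'.1 (w.1 j)) = wv w j := by
    intro j
    unfold wv
    rw [(hw' (w.1 j)).1, (hw' (w.1 j)).2, ← hs, (hw j).2]
  have hmono : StrictMono (fun j => w'.1 (w.1 j)) := by
    intro i j hij
    by_contra hlt
    have hne : w'.1 (w.1 j) ≠ w'.1 (w.1 i) := by
      intro e
      have := w.1.injective (w'.1.injective e)
      rw [this] at hij
      exact lt_irrefl _ hij
    have hlt' : w'.1 (w.1 j) < w'.1 (w.1 i) := lt_of_le_of_ne (not_lt.1 hlt) hne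
    have h1 := hf'.1 _ _ hlt'
    rw [hfp, hfp, hwp, hwp] at h1
    have h2 := hf.1 _ _ hij
    omega
  have hid : (fun j => w'.1 (w.1 j)) = (fun j : Fin n => j) := by
    apply (StrictMono.range_inj hmono strictMono_id).1
    rw [show (fun j => w'.1 (w.1 j)) = w'.1 ∘ w.1 from rfl,
      Function.Surjective.range_eq (w'.1.surjective.comp w.1.surjective), Set.range_id]
  have hσ : w.1 = w'.1 := by
    apply Equiv.ext
    intro j
    have h1 : w'.1 (w.1 j) = j := congrFun hid j
    have h2 := (hw' (w.1 j)).1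
    rw [h1] at h2
    exact h2.symm
  exact ⟨Prod.ext hσ (funext hs), rfl⟩

end

end Run7.h355.GB
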