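import Pool.Agent.Run7.h355.GB.PP

set_option autoImplicit false

/-!
# Signed permutations and compatible sequences
-/

namespace Run7.h355.GB

open Finset

noncomputable section

/-- signed permutations -/
abbrev SP (n : ℕ) : Type := Equiv.Perm (Fin n) × (Fin n → Bool)

/-- the value of the signed permutation -/
def wv {n : ℕ} (w : SP n) (j : Fin n) : ℤ :=
  (if w.2 j then (-1 : ℤ) else 1) * (((w.1 j : ℕ) : ℤ) + 1)

theorem wv_neg {n : ℕ} {w : SP n} {j : Fin n} (h : w.2 j = true) :
    wv w j = -(((w.1 j : ℕ) : ℤ) + 1) := by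
  unfold wv; rw [h]; simp

theorem wv_pos {n : ℕ} {w : SP n} {j : Fin n} (h : w.2 j = false) :
    wv w j = ((w.1 j : ℕ) : ℤ) + 1 := by
  unfold wv; rw [h]; simp

theorem wv_inj {n : ℕ} {w : SP n} {i j : Fin n} (h : wv w i = wv w j) : i = j := by
  apply w.1.injective
  apply Fin.ext
  rcases hi : w.2 i <;> rcases hj : w.2 j
  · rw [wv_pos hi, wv_pos hj] at h; omega
  · rw [wv_pos hi, wv_neg hj] at h; omega
  · rw [wv_neg hi, wv_pos hj] at h; omega
  · rw [wv_neg hi, wv_neg hj] at h; omega

/-- compatible sequences -/
def Cp {n : ℕ} (w : SP n) (f : Fin n → ℕ) : Prop :=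
  (∀ i j : Fin n, i < j → f i < f j ∨ (f i = f j ∧ wv w i < wv w j)) ∧
    ∀ j, f j = 0 → w.2 j = false

/-- the first descent set -/
def D1 {n : ℕ} (w : SP n) : Finset (Fin n) := univ.filter (fun j : Fin n => j.val = 0 ∧ w.2 j = true)

/-- the other descents -/
def D2 {n : ℕ} (w : SP n) : Finset (Fin n × Fin n) :=
  univ.filter (fun p : Fin n × Fin n => p.2.val = p.1.val + 1 ∧ wv w p.2 < wv w p.1)

/-- the gap sequence -/
def dw {n : ℕ} (w : SP n) (k : ℕ) : ℕ :=
  ((D1 w).filter (fun j => j.val = k)).card + ((D2 w).filter (fun p => p.2.val = k)).card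

theorem sum_dw {n : ℕ} (w : SP n) :
    ∑ k ∈ range n, dw w k = (D1 w).card + (D2 w).card := by
  unfold dw
  rw [Finset.sum_add_distrib]
  rw [← Finset.card_eq_sum_card_fiberwise (f := fun j : Fin n => j.val) (s := D1 w) (t := range n)
    (fun j _ => by simp)]
  rw [← Finset.card_eq_sum_card_fiberwise (f := fun p : Fin n × Fin n => p.2.val) (s := D2 w)
    (t := range n) (fun j _ => by simp)]

theorem dw_zero {n : ℕ} (w : SP n) (j : Fin n) (hj : j.val = 0) :
    dw w 0 = if w.2 j = true then 1 else 0 := by
  unfold dw
  have h2 : (D2 w).filter (fun p => p.2.val = 0) = ∅ := by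
    apply Finset.filter_eq_empty_iff.2
    intro p hp
    unfold D2 at hp
    rw [Finset.mem_filter] at hp
    omega
  rw [h2, Finset.card_empty, add_zero]
  split_ifs with h
  · have : (D1 w).filter (fun j => j.val = 0) = {j} := by
      ext i
      unfold D1
      rw [Finset.mem_filter, Finset.mem_filter, Finset.mem_singleton]
      constructor
      · rintro ⟨-, h⟩
        exact Fin.ext (by omega)
      · rintro rfl
        exact ⟨⟨Finset.mem_univ _, hj, h⟩, hj⟩
    rw [this, Finset.card_singleton]
  · rw [Finset.card_eq_zero]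
    apply Finset.filter_eq_empty_iff.2
    intro i hi hi0
    unfold D1 at hi
    rw [Finset.mem_filter] at hi
    have : i = j := Fin.ext (by omega)
    rw [this] at hi
    exact h hi.2.2

theorem dw_succ {n : ℕ} (w : SP n) (i j : Fin n) (hj : j.val = i.val + 1) :
    dw w j.val = if wv w j < wv w i then 1 else 0 := by
  unfold dw
  have h2 : (D1 w).filter (fun p => p.val = j.val) = ∅ := by
    apply Finset.filter_eq_empty_iff.2
    intro p hp
    unfold D1 at hp
    rw [Finset.mem_filter] at hp
    omega
  rw [h2, Finset.card_empty, zero_add]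
  split_ifs with h
  · have : (D2 w).filter (fun p => p.2.val = j.val) = {(i, j)} := by
      ext ⟨a, b⟩
      unfold D2
      rw [Finset.mem_filter, Finset.mem_filter, Finset.mem_singleton, Prod.mk.injEq]
      simp only
      constructor
      · rintro ⟨⟨-, h1, -⟩, h2⟩
        exact ⟨Fin.ext (by omega), Fin.ext h2⟩
      · rintro ⟨rfl, rfl⟩
        exact ⟨⟨Finset.mem_univ _, hj, h⟩, rfl⟩
    rw [this, Finset.card_singleton]
  · rw [Finset.card_eq_zero]
    apply Finset.filter_eq_empty_iff.2
    rintro ⟨a, b⟩ hi hi0
    unfold D2 at hi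
    rw [Finset.mem_filter] at hi
    simp only at hi hi0
    have e1 : b = j := Fin.ext hi0
    subst e1
    have e2 : a = i := Fin.ext (by omega)
    rw [e2] at hi
    exact h hi.2.2

theorem mem_AS_dw {n r : ℕ} (w : SP n) (f : Fin n → ℕ) :
    f ∈ AS (dw w) n r ↔ (∀ j, f j ≤ r) ∧ Cp w f := by
  rw [mem_AS]
  constructor
  · rintro ⟨h1, h2, h3⟩
    have hc : ∀ k : ℕ, ∀ i j : Fin n, j.val = i.val + 1 + k →
        f i < f j ∨ (f i = f j ∧ wv w i < wv w j) := by
      intro k
      have base : ∀ i j : Fin n, j.val = i.val + 1 →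
          f i < f j ∨ (f i = f j ∧ wv w i < wv w j) := by
        intro i j hij
        have h := h3 i j hij
        rw [dw_succ w i j hij] at h
        split_ifs at h with hlt
        · left; omega
        · have hne : wv w i ≠ wv w j := by
            intro e
            have := wv_inj e
            rw [this] at hij
            omega
          have : wv w i < wv w j := lt_of_le_of_ne (not_lt.1 hlt) hne
          omega
      induction k with
      | zero =>
        intro i j hij
        exact base i j hij
      | succ k ih =>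
        intro i j hij
        have hj : i.val + 1 + k < n := by have := j.isLt; omega
        have e1 := ih i ⟨i.val + 1 + k, hj⟩ rfl
        have e2 := base ⟨i.val + 1 + k, hj⟩ j (by simp only; omega)
        omega
    have hc' : ∀ i j : Fin n, i < j → f i < f j ∨ (f i = f j ∧ wv w i < wv w j) := by
      intro i j hij
      have : i.val < j.val := hij
      exact hc (j.val - i.val - 1) i j (by omega)
    refine ⟨h1, hc', ?_⟩
    intro j hj
    have hn : 0 < n := lt_of_le_of_lt (Nat.zero_le _) j.isLt
    have hz : f ⟨0, hn⟩ = 0 → w.2 ⟨0, hn⟩ = false := by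
      intro hz
      have h := h2 ⟨0, hn⟩ rfl
      rw [dw_zero w ⟨0, hn⟩ rfl, hz] at h
      split_ifs at h with h4
      · omega
      · exact Bool.eq_false_iff.2 h4
    by_cases e : j = ⟨0, hn⟩
    · rw [e]; rw [e] at hj; exact hz hj
    · have hlt : (⟨0, hn⟩ : Fin n) < j := by
        have : j.val ≠ 0 := fun h => e (Fin.ext h)
        show 0 < j.val
        omega
      rcases hc' _ _ hlt with h | ⟨h, h'⟩
      · omega
      · have h5 := hz (by omega)
        rw [wv_pos h5] at h'
        rcases h6 : w.2 j
        · rfl
        · rw [wv_neg h6] at h'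
          omega
  · rintro ⟨h1, h2, h3⟩
    refine ⟨h1, ?_, ?_⟩
    · intro j hj
      rw [dw_zero w j hj]
      split_ifs with h
      · by_contra hlt
        have := h3 j (by omega)
        rw [this] at h
        exact Bool.false_ne_true h
      · omega
    · intro i j hij
      rw [dw_succ w i j hij]
      have := h2 i j (by show i.val < j.val; omega)
      split_ifs with h
      · omega
      · omega

end

end Run7.h355.GB
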