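import Pool.Agent.Run7.h355.GB.Pos

set_option autoImplicit false

/-!
# The gamma expansion with natural coefficients
-/

namespace Run7.h355.GB

open Finset

noncomputable section

theorem ev_G (n : ℕ) : ev (G n) = ∑ i ∈ range (n / 2 + 1), PowerSeries.C (g n i) * Y ^ i := by
  unfold ev
  have hd : (G n).natDegree < n / 2 + 1 := by
    rw [Nat.lt_succ_iff, Polynomial.natDegree_le_iff_coeff_eq_zero]
    intro N hN
    exact g_supp n N (by omega)
  rw [Polynomial.aeval_eq_sum_range' hd]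
  apply Finset.sum_congr rfl
  intro i _
  rw [← PowerSeries.smul_eq_C_mul]
  rfl

theorem q_mul (n : ℕ) : (1 - PowerSeries.X) ^ (n + 1) * q n = (1 + PowerSeries.X) ^ n := by
  unfold q
  have h : (1 - PowerSeries.X) ^ (n + 1) * u ^ (n + 1) = 1 := by
    rw [← mul_pow, hu, one_pow]
  linear_combination ((1 + PowerSeries.X) ^ n) * h

theorem pow_Y (n i : ℕ) (hi : 2 * i ≤ n) :
    (1 + PowerSeries.X) ^ n * Y ^ i = PowerSeries.X ^ i * (1 + PowerSeries.X) ^ (n - 2 * i) := by
  obtain ⟨d, rfl⟩ : ∃ d, n = 2 * i + d := ⟨n - 2 * i, by omega⟩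
  rw [Nat.add_sub_cancel_left]
  unfold Y
  have h : (1 + PowerSeries.X) ^ (2 * i) * v ^ (2 * i) = 1 := by
    rw [← mul_pow, hv, one_pow]
  rw [pow_add, mul_pow, ← pow_mul]
  linear_combination ((1 + PowerSeries.X) ^ d * PowerSeries.X ^ i) * h

theorem coe_sum (s : Finset ℕ) (f : ℕ → Polynomial ℚ) :
    ((∑ i ∈ s, f i : Polynomial ℚ) : PowerSeries ℚ) = ∑ i ∈ s, (f i : PowerSeries ℚ) := by
  induction s using Finset.induction_on with
  | empty => simp
  | insert a s ha ih => rw [Finset.sum_insert ha, Finset.sum_insert ha, Polynomial.coe_add, ih]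

theorem poly_eq (I : Polynomial ℤ) (n : ℕ) (c : ℕ → ℕ → ℚ) (h0 : ∀ r, c 0 r = 1)
    (h1 : ∀ r : ℕ, c 1 r = 2 * r + 1)
    (h : ∀ n r : ℕ, ((n : ℚ) + 2) * c (n + 2) r =
      (2 * (r : ℚ) + 1) * c (n + 1) r + ((n : ℚ) + 1 + 2 * r * (r + 1)) * c n r)
    (hI : ((I.map (Int.castRingHom ℚ) : Polynomial ℚ) : PowerSeries ℚ) =
      (1 - PowerSeries.X) ^ (n + 1) * ser c n) :
    I.map (Int.castRingHom ℚ) = ∑ i ∈ range (n / 2 + 1),
      Polynomial.C (g n i) * Polynomial.X ^ i * (1 + Polynomial.X) ^ (n - 2 * i) := by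
  apply Polynomial.coe_injective
  rw [hI, ser_eq c h0 h1 h, ← mul_assoc, q_mul, ev_G, Finset.mul_sum]
  have hsum : ((∑ i ∈ range (n / 2 + 1), Polynomial.C (g n i) * Polynomial.X ^ i *
      (1 + Polynomial.X) ^ (n - 2 * i) : Polynomial ℚ) : PowerSeries ℚ) =
      ∑ i ∈ range (n / 2 + 1), ((Polynomial.C (g n i) * Polynomial.X ^ i *
      (1 + Polynomial.X) ^ (n - 2 * i) : Polynomial ℚ) : PowerSeries ℚ) :=
    coe_sum _ _
  rw [hsum]
  apply Finset.sum_congr rfl
  intro i hi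
  rw [Finset.mem_range] at hi
  have e := pow_Y n i (by omega)
  simp only [Polynomial.coe_mul, Polynomial.coe_pow, Polynomial.coe_add, Polynomial.coe_one,
    Polynomial.coe_X, Polynomial.coe_C]
  linear_combination (PowerSeries.C (g n i)) * e

theorem coeff_basis (n j i : ℕ) (hj : j ≤ i) :
    (Polynomial.X ^ j * (1 + Polynomial.X) ^ (n - 2 * j) : Polynomial ℚ).coeff i =
      ((n - 2 * j).choose (i - j) : ℕ) := by
  obtain ⟨d, rfl⟩ : ∃ d, i = d + j := ⟨i - j, by omega⟩
  rw [Polynomial.coeff_X_pow_mul, Nat.add_sub_cancel, Polynomial.coeff_one_add_X_pow]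

theorem coeff_basis' (n j i : ℕ) (hj : i < j) :
    (Polynomial.X ^ j * (1 + Polynomial.X) ^ (n - 2 * j) : Polynomial ℚ).coeff i = 0 := by
  rw [Polynomial.coeff_X_pow_mul']
  simp [Nat.not_le.2 hj]

theorem final (I : Polynomial ℤ) (n : ℕ) (c : ℕ → ℕ → ℚ) (h0 : ∀ r, c 0 r = 1)
    (h1 : ∀ r : ℕ, c 1 r = 2 * r + 1)
    (h : ∀ n r : ℕ, ((n : ℚ) + 2) * c (n + 2) r =
      (2 * (r : ℚ) + 1) * c (n + 1) r + ((n : ℚ) + 1 + 2 * r * (r + 1)) * c n r)
    (hI : ((I.map (Int.castRingHom ℚ) : Polynomial ℚ) : PowerSeries ℚ) =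
      (1 - PowerSeries.X) ^ (n + 1) * ser c n) :
    ∃ γ : ℕ → ℕ, I = ∑ i ∈ range (n / 2 + 1),
      Polynomial.C (γ i : ℤ) * Polynomial.X ^ i * (1 + Polynomial.X) ^ (n - 2 * i) := by
  have hp := poly_eq I n c h0 h1 h hI
  have hz : ∀ i, i < n / 2 + 1 → ∃ z : ℤ, g n i = z := by
    intro i
    induction i using Nat.strong_induction_on with
    | _ i ih =>
      intro hi
      have hc := congrArg (fun P => Polynomial.coeff P i) hp
      simp only [Polynomial.coeff_map, Polynomial.finsetSum_coeff, mul_assoc,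
        Polynomial.coeff_C_mul] at hc
      rw [← Finset.sum_subset (Finset.range_subset_range.2 (show i + 1 ≤ n / 2 + 1 by omega))
        (fun j _ hj => by
          rw [Finset.mem_range, not_lt] at hj
          rw [coeff_basis' n j i (by omega), mul_zero])] at hc
      rw [Finset.sum_range_succ, coeff_basis n i i le_rfl] at hc
      choose! z hz using ih
      rw [Finset.sum_congr rfl (g := fun j => (((z j) * (((n - 2 * j).choose (i - j) : ℕ) : ℤ) : ℤ) : ℚ))
        (fun j hj => by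
          rw [Finset.mem_range] at hj
          rw [coeff_basis n j i hj.le, hz j hj (by omega)]
          push_cast
          ring)] at hc
      refine ⟨I.coeff i - ∑ j ∈ range i, (z j) * (((n - 2 * j).choose (i - j) : ℕ) : ℤ), ?_⟩
      simp only [Nat.sub_self, Nat.choose_zero_right, Nat.cast_one, mul_one] at hc
      rw [Int.cast_sub, Int.cast_sum]
      have : ((Int.castRingHom ℚ) (I.coeff i)) = (I.coeff i : ℚ) := rfl
      rw [this] at hc
      linarith
  have hN : ∀ i, ∃ k : ℕ, i < n / 2 + 1 → g n i = k := by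
    intro i
    by_cases hi : i < n / 2 + 1
    · obtain ⟨z, hz'⟩ := hz i hi
      have hpos := (main_pos n).1 i
      rw [hz'] at hpos
      have hz0 : 0 ≤ z := by exact_mod_cast hpos
      obtain ⟨k, rfl⟩ := Int.eq_ofNat_of_zero_le hz0
      exact ⟨k, fun _ => by rw [hz']; simp⟩
    · exact ⟨0, fun h => absurd h hi⟩
  choose γ hγ using hN
  refine ⟨γ, ?_⟩
  apply Polynomial.map_injective (Int.castRingHom ℚ) Int.cast_injective
  rw [hp, Polynomial.map_sum]
  apply Finset.sum_congr rfl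
  intro i hi
  rw [Finset.mem_range] at hi
  rw [hγ i hi]
  simp

end

end Run7.h355.GB
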