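import Mathlib

set_option autoImplicit false

/-!
# Chains with prescribed gaps and their generating function
-/

namespace Run7.h355.GB

open Finset

noncomputable section

/-- sequences bounded by `r` with gaps at least `d` -/
def AS (d : ℕ → ℕ) (n r : ℕ) : Finset (Fin n → ℕ) :=
  (Fintype.piFinset (fun _ : Fin n => range (r + 1))).filter
    (fun f => (∀ j : Fin n, j.val = 0 → d 0 ≤ f j) ∧
      ∀ i j : Fin n, j.val = i.val + 1 → f i + d j.val ≤ f j)

theorem mem_AS {d : ℕ → ℕ} {n r : ℕ} {f : Fin n → ℕ} :
    f ∈ AS d n r ↔ (∀ j, f j ≤ r) ∧ (∀ j : Fin n, j.val = 0 → d 0 ≤ f j) ∧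
      ∀ i j : Fin n, j.val = i.val + 1 → f i + d j.val ≤ f j := by
  unfold AS
  rw [Finset.mem_filter, Fintype.mem_piFinset]
  simp only [Finset.mem_range, Nat.lt_succ_iff]

/-- the number of such sequences, recursively -/
def AR (d : ℕ → ℕ) : ℕ → ℕ → ℕ
  | 0, _ => 1
  | n + 1, r => ∑ t ∈ range (r + 1), if d n ≤ t then AR d n (t - d n) else 0

theorem AS_mono {d : ℕ → ℕ} {n r : ℕ} {f : Fin n → ℕ} (h : f ∈ AS d n r) :
    ∀ k : ℕ, ∀ i j : Fin n, j.val = i.val + k → f i ≤ f j := by
  rw [mem_AS] at h
  intro k
  induction k with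
  | zero =>
    intro i j hij
    have : i = j := Fin.ext (by omega)
    rw [this]
  | succ k ih =>
    intro i j hij
    have hj : i.val + k < n := by have := j.isLt; omega
    have h1 := ih i ⟨i.val + k, hj⟩ rfl
    have h2 := h.2.2 ⟨i.val + k, hj⟩ j (by simp only; omega)
    omega

theorem card_AS_zero (d : ℕ → ℕ) (r : ℕ) : (AS d 0 r).card = 1 := by
  have : AS d 0 r = {fun j => j.elim0} := by
    ext f
    rw [mem_AS, Finset.mem_singleton]
    constructor
    · intro _
      funext j
      exact j.elim0
    · intro _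
      exact ⟨fun j => j.elim0, fun j => j.elim0, fun i => i.elim0⟩
  rw [this, Finset.card_singleton]

theorem card_AS_succ (d : ℕ → ℕ) (n r : ℕ) :
    (AS d (n + 1) r).card =
      ∑ t ∈ range (r + 1), if d n ≤ t then (AS d n (t - d n)).card else 0 := by
  rw [← Finset.sum_filter, ← Finset.card_sigma]
  refine Finset.card_nbij' (fun f => ⟨f (Fin.last n), fun j => f j.castSucc⟩)
    (fun x => Fin.snoc (α := fun _ => ℕ) x.2 x.1) ?_ ?_ ?_ ?_
  · intro f hf
    rw [Finset.mem_coe] at hf
    have hmono := AS_mono hf
    rw [mem_AS] at hf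
    obtain ⟨h1, h2, h3⟩ := hf
    rw [Finset.mem_coe, Finset.mem_sigma, Finset.mem_filter, Finset.mem_range, mem_AS]
    have hd : d n ≤ f (Fin.last n) := by
      rcases Nat.eq_zero_or_pos n with h | h
      · subst h
        exact h2 _ rfl
      · have := h3 ⟨n - 1, by omega⟩ (Fin.last n) (by simp only [Fin.val_last]; omega)
        simp only [Fin.val_last] at this
        omega
    refine ⟨⟨Nat.lt_succ_of_le (h1 _), hd⟩, ?_, ?_, ?_⟩
    · intro j
      have hj := j.isLt
      have h4 := hmono (n - 1 - j.val) j.castSucc ⟨n - 1, by omega⟩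
        (by simp only [Fin.val_castSucc]; omega)
      have h5 := h3 ⟨n - 1, by omega⟩ (Fin.last n) (by simp only [Fin.val_last]; omega)
      simp only [Fin.val_last] at h5
      show f j.castSucc ≤ f (Fin.last n) - d n
      omega
    · intro j hj
      exact h2 _ (by rw [Fin.val_castSucc]; exact hj)
    · intro i j hij
      have := h3 i.castSucc j.castSucc (by simp only [Fin.val_castSucc]; exact hij)
      rw [Fin.val_castSucc] at this
      exact this
  · rintro ⟨t, f⟩ hx
    rw [Finset.mem_coe, Finset.mem_sigma, Finset.mem_filter, Finset.mem_range, mem_AS] at hx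
    obtain ⟨⟨ht, hd⟩, h1, h2, h3⟩ := hx
    simp only at ht hd h1 h2 h3
    rw [Finset.mem_coe, mem_AS]
    simp only
    refine ⟨?_, ?_, ?_⟩
    · intro j
      refine Fin.lastCases ?_ (fun i => ?_) j
      · rw [Fin.snoc_last]; omega
      · rw [Fin.snoc_castSucc]; have := h1 i; omega
    · intro j
      refine Fin.lastCases ?_ (fun i => ?_) j
      · intro h
        rw [Fin.snoc_last]
        rw [Fin.val_last] at h
        subst h
        exact hd
      · intro h
        rw [Fin.snoc_castSucc]
        exact h2 i (by rw [Fin.val_castSucc] at h; exact h)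
    · intro i j
      refine Fin.lastCases ?_ (fun j' => ?_) j
      · intro h
        rw [Fin.val_last] at h
        have hi : i = Fin.castSucc ⟨i.val, by omega⟩ := Fin.ext rfl
        rw [hi, Fin.snoc_castSucc, Fin.snoc_last, Fin.val_last]
        have := h1 ⟨i.val, by omega⟩
        omega
      · intro h
        rw [Fin.val_castSucc] at h
        have hj := j'.isLt
        have hi : i = Fin.castSucc ⟨i.val, by omega⟩ := Fin.ext rfl
        rw [hi, Fin.snoc_castSucc, Fin.snoc_castSucc, Fin.val_castSucc]
        exact h3 _ _ h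
  · intro f _
    funext j
    refine Fin.lastCases ?_ (fun i => ?_) j
    · simp only [Fin.snoc_last]
    · simp only [Fin.snoc_castSucc]
  · rintro ⟨t, f⟩ _
    simp only [Fin.snoc_last, Fin.snoc_castSucc]

theorem card_AS (d : ℕ → ℕ) (n : ℕ) : ∀ r, (AS d n r).card = AR d n r := by
  induction n with
  | zero => intro r; rw [card_AS_zero]; rfl
  | succ n ih =>
    intro r
    rw [card_AS_succ]
    simp only [ih]
    rfl

open PowerSeries in
theorem gf_AR (d : ℕ → ℕ) (n : ℕ) :
    (1 - X : ℚ⟦X⟧) ^ (n + 1) * PowerSeries.mk (fun r => (AR d n r : ℚ)) =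
      X ^ (∑ k ∈ range n, d k) := by
  induction n with
  | zero =>
    simp only [zero_add, pow_one, Finset.range_zero, Finset.sum_empty, pow_zero, AR, Nat.cast_one]
    rw [mul_comm]
    exact PowerSeries.mk_one_mul_one_sub_eq_one ℚ
  | succ n ih =>
    have h : (1 - X : ℚ⟦X⟧) * PowerSeries.mk (fun r => (AR d (n + 1) r : ℚ)) =
        X ^ (d n) * PowerSeries.mk (fun r => (AR d n r : ℚ)) := by
      ext r
      rw [sub_mul, one_mul, map_sub, PowerSeries.coeff_X_pow_mul', PowerSeries.coeff_mk,
        PowerSeries.coeff_mk]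
      cases r with
      | zero =>
        rw [PowerSeries.coeff_zero_X_mul, sub_zero]
        simp only [AR, zero_add, Finset.range_one, Finset.sum_singleton]
        split_ifs <;> simp
      | succ r =>
        rw [PowerSeries.coeff_succ_X_mul, PowerSeries.coeff_mk]
        simp only [AR]
        rw [Finset.sum_range_succ _ (r + 1)]
        push_cast
        split_ifs <;> simp
    rw [pow_succ _ (n + 1), mul_assoc, h, Finset.sum_range_succ, pow_add X, ← ih]
    ring

end

end Run7.h355.GB
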