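import Pool.Agent.Run7.h355.GB.Alg

set_option autoImplicit false

/-!
# Positivity of the gamma coefficients
-/

namespace Run7.h355.GB

noncomputable section

theorem E_eq (m : ℕ) (P : Polynomial ℚ) : E m P = P + Polynomial.C (4 * (m : ℚ)) * (Polynomial.X * P) +
    Polynomial.C 2 * (Polynomial.X * Polynomial.derivative P) -
    Polynomial.C 8 * (Polynomial.X * (Polynomial.X * Polynomial.derivative P)) := by
  have h8 : (Polynomial.C (8 : ℚ)) = Polynomial.C 2 * Polynomial.C 4 := by
    rw [← Polynomial.C_mul]; norm_num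
  rw [h8]
  unfold E
  ring

theorem E_coeff_zero (m : ℕ) (P : Polynomial ℚ) : (E m P).coeff 0 = P.coeff 0 := by
  rw [E_eq]
  simp

theorem E_coeff_succ (m : ℕ) (P : Polynomial ℚ) (i : ℕ) : (E m P).coeff (i + 1) =
    (2 * (i : ℚ) + 3) * P.coeff (i + 1) + 4 * ((m : ℚ) - 2 * i) * P.coeff i := by
  rw [E_eq]
  simp only [Polynomial.coeff_add, Polynomial.coeff_sub, Polynomial.coeff_C_mul,
    Polynomial.coeff_X_mul, Polynomial.coeff_derivative]
  cases i with
  | zero => simp; ring
  | succ i =>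
    simp only [Polynomial.coeff_X_mul, Polynomial.coeff_derivative]
    push_cast
    ring

/-- the gamma coefficients -/
def g (n i : ℕ) : ℚ := (G n).coeff i

theorem g_rec_zero (n : ℕ) : ((n : ℚ) + 2) * g (n + 2) 0 = g (n + 1) 0 + ((n : ℚ) + 1) * g n 0 := by
  have h := congrArg (fun P => Polynomial.coeff P 0) (G_rec n)
  simp only [Polynomial.coeff_add, Polynomial.coeff_C_mul, E_coeff_zero, mul_assoc] at h
  simp at h
  unfold g
  linear_combination h

theorem coeff_aux (a : ℚ) (P : Polynomial ℚ) (i : ℕ) :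
    (Polynomial.C a * (1 - Polynomial.C 4 * Polynomial.X) * P).coeff (i + 1) =
      a * (P.coeff (i + 1) - 4 * P.coeff i) := by
  have : Polynomial.C a * (1 - Polynomial.C 4 * Polynomial.X) * P =
      Polynomial.C a * (P - Polynomial.C 4 * (Polynomial.X * P)) := by ring
  rw [this]
  simp only [Polynomial.coeff_C_mul, Polynomial.coeff_sub, Polynomial.coeff_X_mul]

theorem g_rec_one (n : ℕ) : ((n : ℚ) + 2) * g (n + 2) 1 =
    3 * g (n + 1) 1 + 4 * ((n : ℚ) + 1) * g (n + 1) 0 + ((n : ℚ) + 5) * g n 1 +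
      4 * (n : ℚ) * g n 0 := by
  have h := congrArg (fun P => Polynomial.coeff P (0 + 1)) (G_rec n)
  simp only [Polynomial.coeff_add, Polynomial.coeff_C_mul, coeff_aux, E_coeff_succ,
    E_coeff_zero] at h
  unfold g
  push_cast at h
  linear_combination h

theorem g_rec (n j : ℕ) : ((n : ℚ) + 2) * g (n + 2) (j + 2) =
    (2 * (j : ℚ) + 5) * g (n + 1) (j + 2) + 4 * ((n : ℚ) - 1 - 2 * j) * g (n + 1) (j + 1) +
    ((n : ℚ) + 1 / 2 + (2 * (j : ℚ) + 5) ^ 2 / 2) * g n (j + 2) +
    (-4 * (n : ℚ) - 2 + 2 * ((2 * (j : ℚ) + 5) * ((n : ℚ) - 2 * j - 2) +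
      (2 * (j : ℚ) + 3) * ((n : ℚ) - 1 - 2 * j))) * g n (j + 1) +
    8 * (((n : ℚ) - 1 - 2 * j) * ((n : ℚ) - 2 * j)) * g n j := by
  have h := congrArg (fun P => Polynomial.coeff P ((j + 1) + 1)) (G_rec n)
  simp only [Polynomial.coeff_add, Polynomial.coeff_C_mul, coeff_aux, E_coeff_succ] at h
  unfold g
  push_cast at h
  linear_combination h

theorem g_supp : ∀ n i : ℕ, n < 2 * i → g n i = 0 := by
  intro n
  induction n using Nat.strong_induction_on with
  | _ n ih =>
    intro i hi
    match n, ih, hi with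
    | 0, _, hi =>
      have : i ≠ 0 := by omega
      unfold g G
      rw [Polynomial.coeff_one]
      simp [this]
    | 1, _, hi =>
      have : i ≠ 0 := by omega
      unfold g G
      rw [Polynomial.coeff_one]
      simp [this]
    | (n + 2), ih, hi =>
      have hn : ((n : ℚ) + 2) ≠ 0 := by positivity
      obtain ⟨j, rfl⟩ : ∃ j, i = j + 2 := ⟨i - 2, by omega⟩
      have h := g_rec n j
      have h1 : g (n + 1) (j + 2) = 0 := ih _ (by omega) _ (by omega)
      have h2 : g n (j + 2) = 0 := ih _ (by omega) _ (by omega)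
      have h3 : g n (j + 1) = 0 := ih _ (by omega) _ (by omega)
      have h4 : 4 * ((n : ℚ) - 1 - 2 * j) * g (n + 1) (j + 1) = 0 := by
        by_cases hc : n + 1 < 2 * (j + 1)
        · rw [ih _ (by omega) _ hc, mul_zero]
        · have : n = 2 * j + 1 := by omega
          rw [this]; push_cast; ring
      have h5 : 8 * (((n : ℚ) - 1 - 2 * j) * ((n : ℚ) - 2 * j)) * g n j = 0 := by
        by_cases hc : n < 2 * j
        · rw [ih _ (by omega) _ hc, mul_zero]
        · by_cases hd : n = 2 * j
          · rw [hd]; push_cast; ring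
          · have : n = 2 * j + 1 := by omega
            rw [this]; push_cast; ring
      rw [h1, h2, h3, h4, h5] at h
      have : ((n : ℚ) + 2) * g (n + 2) (j + 2) = 0 := by rw [h]; ring
      exact (mul_eq_zero.1 this).resolve_left hn

/-- the recurrence on the boundary -/
theorem g_bdry (m : ℕ) : (2 * (m : ℚ) + 4) * g (2 * m + 4) (m + 2) =
    4 * g (2 * m + 3) (m + 1) - 4 * ((m : ℚ) + 1) * g (2 * m + 2) (m + 1) +
      16 * g (2 * m + 2) m := by
  have h := g_rec (2 * m + 2) m
  have h1 : g (2 * m + 2 + 1) (m + 2) = 0 := g_supp _ _ (by omega)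
  have h2 : g (2 * m + 2) (m + 2) = 0 := g_supp _ _ (by omega)
  rw [h1, h2] at h
  push_cast at h
  linear_combination h

theorem g00 : g 0 0 = 1 := by unfold g G; simp
theorem g10 : g 1 0 = 1 := by unfold g G; simp

theorem ineq_step (j : ℕ) (A A1 B2 B1 B0 T S : ℚ) (hA : 0 ≤ A) (hA1 : 0 ≤ A1) (hB2 : 0 ≤ B2)
    (hB1 : 0 ≤ B1) (hB0 : 0 ≤ B0)
    (hb : (2 * ((j + 1 : ℕ) : ℚ) + 4) * T = 4 * A - 4 * (((j + 1 : ℕ) : ℚ) + 1) * B2 + 16 * B1)
    (hr : (((2 * (j + 2) : ℕ) : ℚ) + 2) * S =
    (2 * (j : ℚ) + 5) * A + 4 * (((2 * (j + 2) : ℕ) : ℚ) - 1 - 2 * j) * A1 +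
    (((2 * (j + 2) : ℕ) : ℚ) + 1 / 2 + (2 * (j : ℚ) + 5) ^ 2 / 2) * B2 +
    (-4 * ((2 * (j + 2) : ℕ) : ℚ) - 2 + 2 * ((2 * (j : ℚ) + 5) *
      (((2 * (j + 2) : ℕ) : ℚ) - 2 * j - 2) +
      (2 * (j : ℚ) + 3) * (((2 * (j + 2) : ℕ) : ℚ) - 1 - 2 * j))) * B1 +
    8 * ((((2 * (j + 2) : ℕ) : ℚ) - 1 - 2 * j) * (((2 * (j + 2) : ℕ) : ℚ) - 2 * j)) * B0) :
    (((j + 2 : ℕ) : ℚ) + 1) * T ≤ 4 * S := by
  have hj : (0 : ℚ) ≤ j := Nat.cast_nonneg j
  push_cast at hb hr ⊢
  have hb1 : (2 * (j : ℚ) + 6) * T ≤ 4 * A + 16 * B1 := by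
    have : 0 ≤ 4 * ((j : ℚ) + 1 + 1) * B2 := by positivity
    linarith
  have hr1 : (2 * (j : ℚ) + 5) * A + 4 * (3 * j + 5) * B1 ≤ (2 * (j : ℚ) + 6) * S := by
    have e1 : 0 ≤ 12 * A1 := by positivity
    have e2 : 0 ≤ (2 * ((j : ℚ) + 2) + 1 / 2 + (2 * (j : ℚ) + 5) ^ 2 / 2) * B2 := by
      positivity
    have e3 : 0 ≤ 96 * B0 := by positivity
    have e4 : (2 * (j : ℚ) + 6) * S = (2 * (j : ℚ) + 5) * A + 12 * A1 +
        (2 * ((j : ℚ) + 2) + 1 / 2 + (2 * (j : ℚ) + 5) ^ 2 / 2) * B2 +
        4 * (3 * j + 5) * B1 + 96 * B0 := by linear_combination hr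
    linarith
  have hpos : (0 : ℚ) < 2 * (j : ℚ) + 6 := by positivity
  have h1 : ((j : ℚ) + 2 + 1) * ((2 * (j : ℚ) + 6) * T) ≤
      ((j : ℚ) + 2 + 1) * (4 * A + 16 * B1) :=
    mul_le_mul_of_nonneg_left hb1 (by positivity)
  have h2 : ((j : ℚ) + 2 + 1) * (4 * A + 16 * B1) ≤
      4 * ((2 * (j : ℚ) + 5) * A + 4 * (3 * j + 5) * B1) := by
    have e1 : 0 ≤ (4 * (j : ℚ) + 8) * A + (32 * (j : ℚ) + 32) * B1 := by positivity
    have e2 : 4 * ((2 * (j : ℚ) + 5) * A + 4 * (3 * j + 5) * B1) -
        ((j : ℚ) + 2 + 1) * (4 * A + 16 * B1) =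
        (4 * (j : ℚ) + 8) * A + (32 * (j : ℚ) + 32) * B1 := by ring
    linarith
  have h3 : (2 * (j : ℚ) + 6) * (((j : ℚ) + 2 + 1) * T) ≤
      (2 * (j : ℚ) + 6) * (4 * S) := by
    have e1 : (2 * (j : ℚ) + 6) * (((j : ℚ) + 2 + 1) * T) =
        ((j : ℚ) + 2 + 1) * ((2 * (j : ℚ) + 6) * T) := by ring
    rw [e1]
    linarith
  exact le_of_mul_le_mul_left h3 hpos

theorem main_pos : ∀ n : ℕ, (∀ i, 0 ≤ g n i) ∧
    (∀ m, n = 2 * m + 2 → ((m : ℚ) + 1) * g n (m + 1) ≤ 4 * g n m) := by
  intro n
  induction n using Nat.strong_induction_on with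
  | _ n ih =>
    match n, ih with
    | 0, _ =>
      refine ⟨fun i => ?_, fun m hm => by omega⟩
      by_cases hi : i = 0
      · rw [hi, g00]; norm_num
      · rw [g_supp 0 i (by omega)]
    | 1, _ =>
      refine ⟨fun i => ?_, fun m hm => by omega⟩
      by_cases hi : i = 0
      · rw [hi, g10]; norm_num
      · rw [g_supp 1 i (by omega)]
    | (n + 2), ih =>
      have hn : (0 : ℚ) < (n : ℚ) + 2 := by positivity
      have P0 : ∀ i, 0 ≤ g n i := (ih n (by omega)).1
      have P1 : ∀ i, 0 ≤ g (n + 1) i := (ih (n + 1) (by omega)).1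
      have hn0 : (0 : ℚ) ≤ n := Nat.cast_nonneg n
      constructor
      · intro i
        by_cases hs : n + 2 < 2 * i
        · rw [g_supp _ _ hs]
        · match i, hs with
          | 0, _ =>
            have h := g_rec_zero n
            have a := P0 0
            have b := P1 0
            have : 0 ≤ ((n : ℚ) + 2) * g (n + 2) 0 := by rw [h]; positivity
            exact nonneg_of_mul_nonneg_right this hn
          | 1, _ =>
            have h := g_rec_one n
            have a := P0 0
            have b := P1 0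
            have a1 := P0 1
            have b1 := P1 1
            have : 0 ≤ ((n : ℚ) + 2) * g (n + 2) 1 := by rw [h]; positivity
            exact nonneg_of_mul_nonneg_right this hn
          | (j + 2), hs =>
            by_cases hb : n = 2 * j + 2
            · subst hb
              have h := g_bdry j
              have h2 := (ih (2 * j + 2) (by omega)).2 j rfl
              have b := P1 (j + 1)
              have : 0 ≤ (2 * (j : ℚ) + 4) * g (2 * j + 4) (j + 2) := by
                rw [h]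
                have b' : 0 ≤ g (2 * j + 3) (j + 1) := b
                linarith
              exact nonneg_of_mul_nonneg_right this (by positivity)
            · obtain ⟨d, rfl⟩ : ∃ d, n = 2 * j + 3 + d := ⟨n - (2 * j + 3), by omega⟩
              have h := g_rec (2 * j + 3 + d) j
              have a := P0 (j + 2)
              have a1 := P0 (j + 1)
              have a2 := P0 j
              have b := P1 (j + 2)
              have b1 := P1 (j + 1)
              have : 0 ≤ (((2 * j + 3 + d : ℕ) : ℚ) + 2) * g (2 * j + 3 + d + 2) (j + 2) := by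
                rw [h]
                have e : (2 * (j : ℚ) + 5) * g (2 * j + 3 + d + 1) (j + 2) +
                    4 * (((2 * j + 3 + d : ℕ) : ℚ) - 1 - 2 * j) * g (2 * j + 3 + d + 1) (j + 1) +
                    (((2 * j + 3 + d : ℕ) : ℚ) + 1 / 2 + (2 * (j : ℚ) + 5) ^ 2 / 2) *
                      g (2 * j + 3 + d) (j + 2) +
                    (-4 * ((2 * j + 3 + d : ℕ) : ℚ) - 2 + 2 * ((2 * (j : ℚ) + 5) *
                      (((2 * j + 3 + d : ℕ) : ℚ) - 2 * j - 2) +
                      (2 * (j : ℚ) + 3) * (((2 * j + 3 + d : ℕ) : ℚ) - 1 - 2 * j))) *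
                      g (2 * j + 3 + d) (j + 1) +
                    8 * ((((2 * j + 3 + d : ℕ) : ℚ) - 1 - 2 * j) *
                      (((2 * j + 3 + d : ℕ) : ℚ) - 2 * j)) * g (2 * j + 3 + d) j =
                    (2 * (j : ℚ) + 5) * g (2 * j + 3 + d + 1) (j + 2) +
                    4 * (d + 2) * g (2 * j + 3 + d + 1) (j + 1) +
                    (2 * j + 3 + d + 1 / 2 + (2 * (j : ℚ) + 5) ^ 2 / 2) *
                      g (2 * j + 3 + d) (j + 2) +
                    (4 * j + 8 + d * (8 * j + 12)) * g (2 * j + 3 + d) (j + 1) +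
                    8 * ((d + 2) * (d + 3)) * g (2 * j + 3 + d) j := by
                  push_cast
                  ring
                rw [e]
                positivity
              exact nonneg_of_mul_nonneg_right this (by positivity)
      · intro m hm
        have hnm : n = 2 * m := by omega
        subst hnm
        match m with
        | 0 =>
          have h := g_rec_one 0
          have h' := g_rec_zero 0
          rw [g00, show g (0 + 1) 0 = 1 from g10, show g (0 + 1) 1 = 0 from g_supp _ _ (by omega),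
            show g 0 1 = 0 from g_supp _ _ (by omega)] at h
          rw [g00, show g (0 + 1) 0 = 1 from g10] at h'
          norm_num at h h'
          show (((0 : ℕ) : ℚ) + 1) * g 2 1 ≤ 4 * g 2 0
          have e1 : g 2 1 = 2 := by linarith
          have e0 : g 2 0 = 1 := by linarith
          rw [e1, e0]; norm_num
        | 1 =>
          have hb := g_bdry 0
          have hr := g_rec_one 2
          have b := P1 1
          have a1 := P0 1
          have a0 := P0 0
          have b0 := P1 0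
          norm_num at hb hr
          show (((1 : ℕ) : ℚ) + 1) * g 4 2 ≤ 4 * g 4 1
          have b' : 0 ≤ g 3 1 := b
          have b0' : 0 ≤ g 3 0 := b0
          have a1' : 0 ≤ g 2 1 := a1
          have a0' : 0 ≤ g 2 0 := a0
          push_cast
          nlinarith
        | (j + 2) =>
          have hb := g_bdry (j + 1)
          have hr := g_rec (2 * (j + 2)) j
          have b := P1 (j + 2)
          have b1 := P1 (j + 1)
          have a2 := P0 (j + 2)
          have a1 := P0 (j + 1)
          have a0 := P0 j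
          exact ineq_step j _ _ _ _ _ _ _ b b1 a2 a1 a0 hb hr

end

end Run7.h355.GB
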