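import Pool.Agent.Run7.h355.GB.Bij

set_option autoImplicit false

/-!
# Surjectivity
-/

namespace Run7.h355.GB

open Finset

noncomputable section

theorem lex_lt {x y x' y' : ℤ} {k k' : ℕ} :
    (toLex (toLex (x, y), k) : (ℤ ×ₗ ℤ) ×ₗ ℕ) < toLex (toLex (x', y'), k') ↔
      x < x' ∨ (x = x' ∧ (y < y' ∨ (y = y' ∧ k < k'))) := by
  rw [Prod.Lex.lt_iff]
  simp only [ofLex_toLex]
  rw [Prod.Lex.lt_iff]
  simp only [ofLex_toLex]
  have h : (toLex (x, y) : ℤ ×ₗ ℤ) = toLex (x', y') ↔ x = x' ∧ y = y' := by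
    rw [toLex.injective.eq_iff, Prod.mk.injEq]
  rw [h]
  omega

/-- the enumeration of the multiset in lexicographic order -/
theorem enum {n : ℕ} (P : Finset (ℤ × ℤ)) (m : ℤ × ℤ → ℕ) (hm : ∑ p ∈ P, m p = n) :
    ∃ (X Y : Fin n → ℤ) (K : Fin n → ℕ),
      (∀ j, (X j, Y j) ∈ P ∧ K j < m (X j, Y j)) ∧
      (∀ i j, i < j ↔ X i < X j ∨ (X i = X j ∧ (Y i < Y j ∨ (Y i = Y j ∧ K i < K j)))) ∧
      (∀ (x y : ℤ) (k : ℕ), (x, y) ∈ P → k < m (x, y) → ∃ j, X j = x ∧ Y j = y ∧ K j = k) := by
  let Ω : Finset ((ℤ ×ₗ ℤ) ×ₗ ℕ) :=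
    (P.sigma (fun p => range (m p))).map
      ⟨fun x => toLex (toLex x.1, x.2), by
        rintro ⟨p, k⟩ ⟨p', k'⟩ h
        have h := toLex.injective h
        rw [Prod.mk.injEq] at h
        obtain ⟨h1, h2⟩ := h
        have h1 := toLex.injective h1
        simp only at h1 h2
        rw [h1, h2]⟩
  have hc : Ω.card = n := by
    rw [Finset.card_map, Finset.card_sigma, ← hm]
    simp
  have hmem : ∀ (x y : ℤ) (k : ℕ), toLex (toLex (x, y), k) ∈ Ω ↔ (x, y) ∈ P ∧ k < m (x, y) := by
    intro x y k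
    rw [Finset.mem_map]
    constructor
    · rintro ⟨⟨p, k'⟩, h, e⟩
      rw [Finset.mem_sigma, Finset.mem_range] at h
      have e : toLex (toLex p, k') = (toLex (toLex (x, y), k) : (ℤ ×ₗ ℤ) ×ₗ ℕ) := e
      have e := toLex.injective e
      rw [Prod.mk.injEq] at e
      obtain ⟨h1, h2⟩ := e
      have h1 := toLex.injective h1
      rw [← h1, ← h2]
      exact h
    · rintro ⟨h1, h2⟩
      refine ⟨⟨(x, y), k⟩, ?_, rfl⟩
      rw [Finset.mem_sigma, Finset.mem_range]
      exact ⟨h1, h2⟩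
  let e := Ω.orderIsoOfFin hc
  refine ⟨fun j => (ofLex (ofLex (e j).1).1).1, fun j => (ofLex (ofLex (e j).1).1).2,
    fun j => (ofLex (e j).1).2, ?_, ?_, ?_⟩
  · intro j
    have h := (hmem (ofLex (ofLex (e j).1).1).1 (ofLex (ofLex (e j).1).1).2
      (ofLex (e j).1).2).1 (e j).2
    exact h
  · intro i j
    rw [← e.lt_iff_lt, ← lex_lt]
    exact Iff.rfl
  · intro x y k h1 h2
    have h := (hmem x y k).2 ⟨h1, h2⟩
    refine ⟨e.symm ⟨_, h⟩, ?_, ?_, ?_⟩
    · show (ofLex (ofLex (e (e.symm ⟨_, h⟩)).1).1).1 = x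
      rw [e.apply_symm_apply]
      rfl
    · show (ofLex (ofLex (e (e.symm ⟨_, h⟩)).1).1).2 = y
      rw [e.apply_symm_apply]
      rfl
    · show (ofLex (e (e.symm ⟨_, h⟩)).1).2 = k
      rw [e.apply_symm_apply]
      rfl

theorem Phi_surj {n r : ℕ} (m : ℤ × ℤ → ℕ) (hm : m ∈ CC (Pr r) tau n) :
    ∃ (w : SP n) (f : Fin n → ℕ), IsInv w ∧ (∀ j, f j ≤ r) ∧ Cp w f ∧ Phi w f = m := by
  rw [mem_CC] at hm
  obtain ⟨⟨hs, hsupp⟩, hinv⟩ := hm
  obtain ⟨X, Y, K, ha, hb, hc⟩ := enum (Pr r) m hs
  have hP : ∀ j, 0 ≤ X j ∧ X j ≤ r ∧ -(r : ℤ) ≤ Y j ∧ Y j ≤ r ∧ (X j = 0 → 0 ≤ Y j) :=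
    fun j => mem_Pr.1 (ha j).1
  have hinj : ∀ i j, X i = X j → Y i = Y j → K i = K j → i = j := by
    intro i j h1 h2 h3
    rcases lt_trichotomy i j with h | h | h
    · have := (hb i j).1 h; omega
    · exact h
    · have := (hb j i).1 h; omega
  have hex : ∀ j, ∃ j', (Y j < 0 → X j' = -Y j ∧ Y j' = -X j ∧ K j' = m (X j, Y j) - 1 - K j) ∧
      (0 ≤ Y j → X j' = Y j ∧ Y j' = X j ∧ K j' = K j) := by
    intro j
    have h1 := (ha j).1
    have h2 := (ha j).2
    have h3 := hinv _ h1
    have h4 := tau_mem _ h1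
    rcases lt_or_ge (Y j) 0 with hy | hy
    · have h5 : tau (X j, Y j) = (-Y j, -X j) := by
        unfold tau; simp only; rw [if_pos hy]
      rw [h5] at h3 h4
      obtain ⟨j', e1, e2, e3⟩ := hc (-Y j) (-X j) (m (X j, Y j) - 1 - K j) h4 (by omega)
      exact ⟨j', fun _ => ⟨e1, e2, e3⟩, fun h => absurd h (not_le.2 hy)⟩
    · have h5 : tau (X j, Y j) = (Y j, X j) := by
        unfold tau; simp only; rw [if_neg (not_lt.2 hy)]
      rw [h5] at h3 h4
      obtain ⟨j', e1, e2, e3⟩ := hc (Y j) (X j) (K j) h4 (by omega)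
      exact ⟨j', fun h => absurd h (not_lt.2 hy), fun _ => ⟨e1, e2, e3⟩⟩
  choose s hs1 hs2 using hex
  have hss : ∀ j, s (s j) = j := by
    intro j
    have hp := hP j
    have hk := (ha j).2
    rcases lt_or_ge (Y j) 0 with hy | hy
    · obtain ⟨a1, a2, a3⟩ := hs1 j hy
      have hy' : Y (s j) < 0 := by omega
      obtain ⟨b1, b2, b3⟩ := hs1 (s j) hy'
      have h5 : tau (X j, Y j) = (-Y j, -X j) := by
        unfold tau; simp only; rw [if_pos hy]
      have h3 := hinv _ (ha j).1
      rw [h5] at h3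
      apply hinj
      · omega
      · omega
      · rw [b3, a1, a2, h3, a3]
        omega
    · obtain ⟨a1, a2, a3⟩ := hs2 j hy
      have hy' : 0 ≤ Y (s j) := by omega
      obtain ⟨b1, b2, b3⟩ := hs2 (s j) hy'
      apply hinj
      · omega
      · omega
      · omega
  let σ : Equiv.Perm (Fin n) := Function.Involutive.toPerm s hss
  have hσ : ∀ j, σ j = s j := fun j => rfl
  let w : SP n := (σ, fun j => decide (Y j < 0))
  have hw1 : ∀ j, w.1 j = s j := fun j => rfl
  have hw2 : ∀ j, w.2 j = decide (Y j < 0) := fun j => rfl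
  let f : Fin n → ℕ := fun j => (X j).toNat
  have hf : ∀ j, (f j : ℤ) = X j := fun j => Int.toNat_of_nonneg (hP j).1
  have hsY : ∀ j, (Y (s j) < 0 ↔ Y j < 0) := by
    intro j
    have hp := hP j
    rcases lt_or_ge (Y j) 0 with hy | hy
    · obtain ⟨a1, a2, a3⟩ := hs1 j hy
      omega
    · obtain ⟨a1, a2, a3⟩ := hs2 j hy
      omega
  have hI : IsInv w := by
    intro j
    rw [hw1, hw1, hw2, hw2]
    refine ⟨hss j, ?_⟩
    simp only [hsY]
  have hgg : ∀ j, gg w f j = (X j, Y j) := by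
    intro j
    have hp := hP j
    rcases lt_or_ge (Y j) 0 with hy | hy
    · obtain ⟨a1, a2, a3⟩ := hs1 j hy
      rw [gg_neg (by rw [hw2]; exact decide_eq_true hy), hf, hw1, hf, a1, neg_neg]
    · obtain ⟨a1, a2, a3⟩ := hs2 j hy
      rw [gg_pos (by rw [hw2]; exact decide_eq_false (not_lt.2 hy)), hf, hw1, hf, a1]
  refine ⟨w, f, hI, ?_, ?_, ?_⟩
  · intro j
    have := hf j
    have := (hP j).2.1
    omega
  · refine ⟨?_, ?_⟩
    · intro i j hij
      have h1 := (hb i j).1 hij
      have hfi := hf i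
      have hfj := hf j
      have hpi := hP i
      have hpj := hP j
      rcases h1 with h1 | ⟨h1, h2⟩
      · left; omega
      · right
        refine ⟨by omega, ?_⟩
        rcases lt_or_ge (Y i) 0 with hi | hi <;> rcases lt_or_ge (Y j) 0 with hj | hj
        · rw [wv_neg (by rw [hw2]; exact decide_eq_true hi),
            wv_neg (by rw [hw2]; exact decide_eq_true hj), hw1, hw1]
          have : s j < s i := by
            rw [hb]
            obtain ⟨a1, a2, a3⟩ := hs1 i hi
            obtain ⟨b1, b2, b3⟩ := hs1 j hj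
            rcases h2 with h2 | ⟨h2, h3⟩
            · left; omega
            · right
              refine ⟨by omega, Or.inr ⟨by omega, ?_⟩⟩
              rw [a3, b3, h1, h2]
              have := (ha j).2
              omega
          have : (s j).val < (s i).val := this
          omega
        · rw [wv_neg (by rw [hw2]; exact decide_eq_true hi),
            wv_pos (by rw [hw2]; exact decide_eq_false (not_lt.2 hj))]
          omega
        · omega
        · rw [wv_pos (by rw [hw2]; exact decide_eq_false (not_lt.2 hi)),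
            wv_pos (by rw [hw2]; exact decide_eq_false (not_lt.2 hj)), hw1, hw1]
          have : s i < s j := by
            rw [hb]
            obtain ⟨a1, a2, a3⟩ := hs2 i hi
            obtain ⟨b1, b2, b3⟩ := hs2 j hj
            omega
          have : (s i).val < (s j).val := this
          omega
    · intro j h0
      rw [hw2]
      apply decide_eq_false
      have h1 := hf j
      have h2 := hP j
      omega
  · funext p
    unfold Phi
    by_cases hp : m p = 0
    · rw [hp, Finset.card_eq_zero]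
      apply Finset.filter_eq_empty_iff.2
      intro j _ hj
      rw [hgg] at hj
      have := (ha j).2
      rw [hj, hp] at this
      omega
    · have hpP := hsupp p hp
      rw [← Finset.card_range (m p)]
      refine Finset.card_bij (fun j _ => K j) ?_ ?_ ?_
      · intro j hj
        rw [Finset.mem_filter, hgg] at hj
        rw [Finset.mem_range]
        have := (ha j).2
        rw [hj.2] at this
        exact this
      · intro i hi j hj h
        rw [Finset.mem_filter, hgg] at hi hj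
        have e : (X i, Y i) = (X j, Y j) := by rw [hi.2, hj.2]
        rw [Prod.mk.injEq] at e
        exact hinj i j e.1 e.2 h
      · intro k hk
        rw [Finset.mem_range] at hk
        obtain ⟨x, y⟩ := p
        obtain ⟨j, e1, e2, e3⟩ := hc x y k hpP hk
        refine ⟨j, ?_, e3⟩
        rw [Finset.mem_filter, hgg, e1, e2]
        exact ⟨Finset.mem_univ _, rfl⟩

end

end Run7.h355.GB
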